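import Pool.Agent.Lib.MP_a60258_s6.Iface

/-!
# Module PVP: invariance of `pval` and of the graph sums
-/

open MvPolynomial Finset

namespace A602.S6.H43

section General

variable {V : Type} [Fintype V] [DecidableEq V] {S : Finset ℕ}

lemma pval_perm {l l' : List (V × V)} (h : l.Perm l') : ∀ Q : V → R, pval S l Q = pval S l' Q := by
  induction h with
  | nil => exact fun _ => rfl
  | cons e _ ih => exact fun Q => Finset.sum_congr rfl fun j _ => ih _
  | swap e f l =>
    intro Q
    simp only [pval]
    rw [Finset.sum_comm]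
    refine Finset.sum_congr rfl fun i _ => Finset.sum_congr rfl fun j _ => ?_
    rw [dE_comm]
  | trans _ _ ih1 ih2 => exact fun Q => (ih1 Q).trans (ih2 Q)

lemma pval_swap (v w : V) (l : List (V × V)) (Q : V → R) :
    pval S ((v, w) :: l) Q = pval S ((w, v) :: l) Q := by
  simp only [pval, dE_swap v w]

/-- reversing edges -/
lemma pval_flip (b : V × V → Bool) : ∀ (l : List (V × V)) (Q : V → R),
    pval S (l.map fun e => bif b e then e.swap else e) Q = pval S l Q
  | [], _ => rfl
  | (v, w) :: l, Q => by
      rw [List.map_cons]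
      cases b (v, w)
      · exact Finset.sum_congr rfl fun j _ => pval_flip b l _
      · rw [cond_true, Prod.swap_prod_mk, pval_swap]
        exact Finset.sum_congr rfl fun j _ => pval_flip b l _

/-- relabelling of the vertices -/
lemma pval_map (σ : Equiv.Perm V) : ∀ (l : List (V × V)) (Q : V → R),
    pval S (l.map (Prod.map σ σ)) Q = pval S l (Q ∘ σ)
  | [], Q => by
      simp only [pval, List.map_nil, Function.comp]
      exact (Equiv.prod_comp σ fun u => E (Q u)).symm
  | e :: l, Q => by
      simp only [List.map_cons, pval]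
      refine Finset.sum_congr rfl fun j _ => ?_
      rw [pval_map σ l, dE_map]

omit [Fintype V] [DecidableEq V] in
lemma toList_map_perm (m : Multiset (V × V)) (f : V × V → V × V) :
    (m.map f).toList.Perm (m.toList.map f) := by
  rw [← Multiset.coe_eq_coe, Multiset.coe_toList, ← Multiset.map_coe, Multiset.coe_toList]

lemma pval_mmap (σ : Equiv.Perm V) (m : Multiset (V × V)) (P : R) :
    pval S (m.map (Prod.map σ σ)).toList (fun _ => P) = pval S m.toList fun _ => P := by
  rw [pval_perm (toList_map_perm m _), pval_map]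
  rfl

lemma pval_mflip (b : V × V → Bool) (m : Multiset (V × V)) (Q : V → R) :
    pval S (m.map fun e => bif b e then e.swap else e).toList Q = pval S m.toList Q := by
  rw [pval_perm (toList_map_perm m _), pval_flip]

end General

/-- the sorting of the ends -/
def srt (e : Fin 6 × Fin 6) : Bool := decide (e.2 < e.1)

lemma ends_ne : ∀ e : Pr, (ends e).1 ≠ (ends e).2 := by decide

lemma ends_pr : ∀ u v : Fin 6, u ≠ v →
    (bif srt (u, v) then (u, v).swap else (u, v)) = ends (pr u v) := by decide

lemma pr_comm : ∀ u v : Fin 6, pr u v = pr v u := by decide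

lemma pr_ends : ∀ e : Pr, pr (ends e).1 (ends e).2 = e := by decide

/-- the action on the pairs -/
def tr (σ : Equiv.Perm (Fin 6)) (e : Pr) : Pr := pr (σ (ends e).1) (σ (ends e).2)

lemma ends_tr (σ : Equiv.Perm (Fin 6)) (e : Pr) :
    (bif srt (Prod.map σ σ (ends e)) then (Prod.map σ σ (ends e)).swap
      else Prod.map σ σ (ends e)) = ends (tr σ e) :=
  ends_pr _ _ fun h => ends_ne e (σ.injective h)

lemma inv_app (σ : Equiv.Perm (Fin 6)) (u : Fin 6) : σ⁻¹ (σ u) = u := σ.symm_apply_apply u

lemma tr_tr (σ : Equiv.Perm (Fin 6)) (e : Pr) : tr σ⁻¹ (tr σ e) = e := by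
  have h := ends_tr σ e
  unfold tr at h ⊢
  rw [← h]
  cases srt (Prod.map σ σ (ends e))
  · simp only [cond_false, Prod.map_fst, Prod.map_snd, inv_app]
    exact pr_ends e
  · simp only [cond_true, Prod.fst_swap, Prod.snd_swap, Prod.map_fst, Prod.map_snd, inv_app]
    rw [pr_comm]
    exact pr_ends e

/-- the permutation of the pairs -/
def trE (σ : Equiv.Perm (Fin 6)) : Pr ≃ Pr where
  toFun := tr σ
  invFun := tr σ⁻¹
  left_inv := tr_tr σ
  right_inv e := by
    have := tr_tr σ⁻¹ e
    rwa [inv_inv] at this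

lemma ms_act (σ : Equiv.Perm (Fin 6)) (x : Pr → ℕ) :
    ((ms ends (act σ x)).map (Prod.map σ σ)).map (fun e => bif srt e then e.swap else e)
      = ms ends x := by
  rw [Multiset.map_map]
  unfold ms
  have h1 : ∀ (f : Fin 6 × Fin 6 → Fin 6 × Fin 6) (y : Pr → ℕ),
      (∑ a, y a • ({ends a} : Multiset (Fin 6 × Fin 6))).map f
        = ∑ a, y a • ({f (ends a)} : Multiset (Fin 6 × Fin 6)) := by
    intro f y
    have h2 := map_sum (Multiset.mapAddMonoidHom f)
      (fun a => y a • ({ends a} : Multiset (Fin 6 × Fin 6))) Finset.univ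
    rw [Multiset.coe_mapAddMonoidHom] at h2
    rw [h2]
    refine Finset.sum_congr rfl fun a _ => ?_
    rw [Multiset.map_nsmul, Multiset.map_singleton]
  rw [h1]
  rw [← Equiv.sum_comp (trE σ) fun a => x a • ({ends a} : Multiset (Fin 6 × Fin 6))]
  refine Finset.sum_congr rfl fun e _ => ?_
  rw [Function.comp_apply, ends_tr]
  rfl

/-- **PVP.** -/
theorem pvp : PvpStatement := by
  refine ⟨fun V _ _ S l l' Q h => pval_perm h Q, fun S P σ x => ?_⟩
  unfold Vx
  rw [← ms_act σ x, pval_mflip, pval_mmap]

end A602.S6.H43
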